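import Pool.Agent.L5helper16.LG.Fin3
import Pool.Agent.L5helper16.LG.D3
import Pool.Agent.L5helper37.LG.B1
import Pool.Agent.L5helper41.LG.B2
import Pool.Agent.L5helper84.LG.B3
import Pool.Agent.L5helper24.LG.B4
import Pool.Agent.L5helper96.LG.B5
import Pool.Agent.L5helper78.LG.B6
import Pool.Agent.L5helper46.LG.B8
import Pool.Agent.L5helper50.LG.B9
import Pool.Agent.L5helper69.LG.A3
import Pool.Agent.L5helper84.LG.A4
import Pool.Agent.L5helper65.LG.A6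
import Pool.Agent.L5helper17.LG.C1
import Pool.Agent.L5helper71.LG.C2
import Pool.Agent.L5helper82.LG.C3
import Pool.Agent.L5helper70.LG.C4
import Pool.Agent.L5helper1.LG.C5
import Pool.Agent.L5helper33.LG.C6
import Pool.Agent.L5helper15.LG.D1
import Pool.Agent.L5helper65.LG.D2
import Pool.Agent.L5helper43.LG.D5

/-! MP_9a4459_nt (helper16): the question for a semi-random set in place of the primes: the sieve of Eratosthenes is exact
for the primes `p ≤ w n` and random for the primes `w n < p ≤ n ^ θ`. -/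

set_option autoImplicit false

namespace Pool.Agent.Results.MP_9a4459_nt.SemiRandomFirstGaps

open Finset MeasureTheory ProbabilityTheory Filter Topology

/-- the semi-random set `R`: the positive integers `n` without prime factors `p ≤ w n` and with `n ≢ a p` modulo `p` for
the primes `w n < p ≤ n ^ θ` -/
def InR (w : ℕ → ℝ) (θ : ℝ) (a : ℕ → ℕ) (n : ℕ) : Prop :=
  0 < n ∧ ∀ p : ℕ, p.Prime → ((p : ℝ) ≤ w n → ¬ p ∣ n) ∧ (w n < p → (p : ℝ) ≤ (n : ℝ) ^ θ → ¬ n ≡ a p [MOD p])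

/-- `r < s` are consecutive elements of the set `R` -/
def Next (R : ℕ → Prop) (r s : ℕ) : Prop := R r ∧ R s ∧ r < s ∧ ∀ n : ℕ, r < n → n < s → ¬ R n

/-- `g` is the difference of two consecutive elements of `R` -/
def Occurs (R : ℕ → Prop) (g : ℕ) : Prop := ∃ r s : ℕ, Next R r s ∧ s = r + g

/-- the first element of `R` which follows a gap `g` -/
noncomputable def first (R : ℕ → Prop) (g : ℕ) : ℕ := sInf {s : ℕ | ∃ r : ℕ, Next R r s ∧ s = r + g}

open L5helper86.UL L5helper16.LG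

lemma lg_I : St_I := by
  have b1 : St_B1 := @L5helper37.LG.b1
  have b2 : St_B2 := L5helper41.LG.b2
  have b3 : St_B3 := @L5helper84.LG.b3 b1 b2
  have b4 : St_B4 := L5helper24.LG.b4 b2
  have b5 : St_B5 := L5helper96.LG.b5 b4
  have b6 : St_B6 := @L5helper78.LG.b6 b1 b2 b3 b4
  have b8 : St_B8 := @L5helper46.LG.b8 b3 b6
  have b9 : St_B9 := @L5helper50.LG.b9
  have a3 : St_A3 := L5helper69.LG.a3
  have a4 : St_A4 := L5helper84.LG.a4
  have a6 : St_A6 := L5helper65.LG.a6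
  have c1 : St_C1 := L5helper17.LG.c1
  have c2 : St_C2 := L5helper71.LG.c2
  have c3 : St_C3 := L5helper82.LG.c3 a3 c1 c2
  have c4 : St_C4 := L5helper70.LG.c4
  have c5 : St_C5 := L5helper1.LG.c5
  have c6 : St_C6 := L5helper33.LG.c6 a3 a4 c3 c4 c5
  have d1 : St_D1 := @L5helper15.LG.d1 b3 b4 b5
  have d2 : St_D2 := @L5helper65.LG.d2 b9
  have d3 : St_D3 := L5helper16.LG.d3
  have d5 : St_D5 := L5helper43.LG.d5
  exact @L5helper16.LG.icount b3 b5 b8 a4 a6 c6 d1 d2 d3 d5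

open Classical in
/-- early large gaps -/
lemma early {R : ℕ → Prop} {θ : ℝ} (hθ : 0 < θ) (h : ∀ c ε : ℝ, 0 < c → 0 < ε → c / (2 * θ) + ε < 1 →
      ∀ᶠ x : ℕ in atTop, (x : ℝ) ^ (1 - c / (2 * θ) - ε) ≤ #((Icc 1 x).filter fun r : ℕ => (x : ℝ) ^ (1 - ε) ≤ r ∧
        ∃ s : ℕ, s ≤ x ∧ Nxt R r s ∧ |(s : ℝ) - r - c * Real.log x ^ 2| ≤ ε * Real.log x ^ 2))
    (b : ℝ) (hb : 0 < b) (hb2 : b < 2 * θ) : ∀ᶠ x : ℕ in atTop, ∃ r s : ℕ, s ≤ x ∧ Next R r s ∧
      b * Real.log x ^ 2 ≤ (s : ℝ) - r := by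
  obtain ⟨c, hc⟩ : ∃ c, c = (b + 2 * θ) / 2 := ⟨_, rfl⟩
  have hq : c / (2 * θ) < 1 := by
    rw [div_lt_one (by positivity), hc]
    linarith
  obtain ⟨e, he⟩ : ∃ e, e = min (c - b) ((1 - c / (2 * θ)) / 2) := ⟨_, rfl⟩
  have hcb : 0 < c - b := by rw [hc]; linarith
  have h1 : 0 < 1 - c / (2 * θ) := by linarith
  have he0 : 0 < e := by
    rw [he]
    positivity
  have he1 : e ≤ c - b := by rw [he]; exact min_le_left _ _
  have he2 : e ≤ (1 - c / (2 * θ)) / 2 := by rw [he]; exact min_le_right _ _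
  filter_upwards [h c e (by linarith) he0 (by linarith), eventually_ge_atTop 1] with x h2 h3
  have hx0 : (0 : ℝ) < x := by exact_mod_cast h3
  have h4 : (0 : ℝ) < #((Icc 1 x).filter fun r : ℕ => (x : ℝ) ^ (1 - e) ≤ r ∧
        ∃ s : ℕ, s ≤ x ∧ Nxt R r s ∧ |(s : ℝ) - r - c * Real.log x ^ 2| ≤ e * Real.log x ^ 2) :=
    lt_of_lt_of_le (by positivity) h2
  have h5 : 0 < #((Icc 1 x).filter fun r : ℕ => (x : ℝ) ^ (1 - e) ≤ r ∧
        ∃ s : ℕ, s ≤ x ∧ Nxt R r s ∧ |(s : ℝ) - r - c * Real.log x ^ 2| ≤ e * Real.log x ^ 2) := by exact_mod_cast h4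
  obtain ⟨r, hr⟩ := card_pos.1 h5
  rw [mem_filter] at hr
  obtain ⟨_, _, s, hs1, hs2, hs3⟩ := hr
  refine ⟨r, s, hs1, hs2, ?_⟩
  have h6 := (abs_le.1 hs3).1
  have h7 : e * Real.log x ^ 2 ≤ (c - b) * Real.log x ^ 2 := mul_le_mul_of_nonneg_right he1 (by positivity)
  linarith

/-- for every large `g` a gap of size at least `g` occurs early -/
lemma early_g {R : ℕ → Prop} {θ : ℝ} (hθ : 0 < θ) (h : ∀ b : ℝ, 0 < b → b < 2 * θ → ∀ᶠ x : ℕ in atTop,
      ∃ r s : ℕ, s ≤ x ∧ Next R r s ∧ b * Real.log x ^ 2 ≤ (s : ℝ) - r) (ε : ℝ) (hε : 0 < ε) :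
    ∀ᶠ g : ℕ in atTop, ∃ r s : ℕ, Next R r s ∧ r + g ≤ s ∧ Real.log s ≤ (1 + ε) * Real.sqrt (g / (2 * θ)) := by
  obtain ⟨b, hb⟩ : ∃ b, b = 2 * θ / (1 + ε / 2) ^ 2 := ⟨_, rfl⟩
  have h1e : (1 : ℝ) < (1 + ε / 2) ^ 2 := by nlinarith
  have hb0 : 0 < b := by rw [hb]; positivity
  have hb2 : b < 2 * θ := by
    rw [hb]
    exact div_lt_self (by positivity) h1e
  have hgT : Tendsto (fun g : ℕ => (g : ℝ) / (2 * θ)) atTop atTop :=
    Tendsto.atTop_div_const (by positivity) tendsto_natCast_atTop_atTop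
  have hyT : Tendsto (fun g : ℕ => Real.sqrt ((g : ℝ) / (2 * θ))) atTop atTop := Real.tendsto_sqrt_atTop.comp hgT
  have hxT : Tendsto (fun g : ℕ => ⌈Real.exp ((1 + ε / 2) * Real.sqrt ((g : ℝ) / (2 * θ)))⌉₊) atTop atTop :=
    tendsto_nat_ceil_atTop.comp (Real.tendsto_exp_atTop.comp (Tendsto.const_mul_atTop (by positivity) hyT))
  filter_upwards [hxT.eventually (h b hb0 hb2), hyT.eventually_ge_atTop (2 / ε)] with g h2 h3
  obtain ⟨y, hy⟩ : ∃ y, y = Real.sqrt ((g : ℝ) / (2 * θ)) := ⟨_, rfl⟩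
  rw [← hy] at h2 h3 ⊢
  obtain ⟨x, hx⟩ : ∃ x, x = ⌈Real.exp ((1 + ε / 2) * y)⌉₊ := ⟨_, rfl⟩
  rw [← hx] at h2
  obtain ⟨r, s, hs1, hs2, hs3⟩ := h2
  have hy0 : 0 ≤ y := by rw [hy]; exact Real.sqrt_nonneg _
  have hg : (g : ℝ) = 2 * θ * y ^ 2 := by
    rw [hy, Real.sq_sqrt (by positivity)]
    field_simp
  have hexp : Real.exp ((1 + ε / 2) * y) ≤ x := by rw [hx]; exact Nat.le_ceil _
  have hxp : (0 : ℝ) < x := lt_of_lt_of_le (Real.exp_pos _) hexp
  have hlow : (1 + ε / 2) * y ≤ Real.log x := by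
    rw [Real.le_log_iff_exp_le hxp]
    exact hexp
  have hup : Real.log x ≤ (1 + ε / 2) * y + 1 := by
    rw [Real.log_le_iff_le_exp hxp, Real.exp_add]
    have h5 : (x : ℝ) ≤ Real.exp ((1 + ε / 2) * y) + 1 := by
      rw [hx]
      exact (Nat.ceil_lt_add_one (Real.exp_pos _).le).le
    have h6 : 1 ≤ Real.exp ((1 + ε / 2) * y) := Real.one_le_exp (by positivity)
    have h7 : 2 ≤ Real.exp 1 := by
      have := Real.exp_one_gt_d9
      linarith
    nlinarith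
  refine ⟨r, s, hs2, ?_, ?_⟩
  · have h5 : ((1 + ε / 2) * y) ^ 2 ≤ Real.log x ^ 2 := pow_le_pow_left₀ (by positivity) hlow 2
    have h6 : b * ((1 + ε / 2) * y) ^ 2 = g := by
      rw [hb, hg]
      field_simp
    have h7 : b * ((1 + ε / 2) * y) ^ 2 ≤ b * Real.log x ^ 2 := mul_le_mul_of_nonneg_left h5 hb0.le
    have h8 : (r : ℝ) + g ≤ s := by linarith
    exact_mod_cast h8
  · have hsp : (0 : ℝ) < s := by
      have := hs2.2.2.1
      exact_mod_cast (by omega : 0 < s)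
    have h5 : Real.log s ≤ Real.log x := Real.log_le_log hsp (by exact_mod_cast hs1)
    have h6 : 1 ≤ ε / 2 * y := by
      rw [div_le_iff₀ hε] at h3
      linarith
    linarith

lemma first_le {R : ℕ → Prop} {r s : ℕ} (h : Next R r s) : first R (s - r) ≤ s := by
  refine Nat.sInf_le ⟨r, h, ?_⟩
  have := h.2.2.1
  omega

theorem result {Ω : Type} [MeasurableSpace Ω] (P : Measure Ω) [IsProbabilityMeasure P] (a : ℕ → Ω → ℕ)
    (hmeas : ∀ p, Measurable (a p)) (hind : iIndepFun (fun p : Nat.Primes => a p) P)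
    (hunif : ∀ p r : ℕ, p.Prime → r < p → P.real {ω | a p ω = r} = 1 / p)
    (θ : ℝ) (hθ : 0 < θ) (w : ℕ → ℝ) (hw : Monotone w) (hlow : ∀ᶠ n : ℕ in atTop, (Real.log n) ^ 7 ≤ w n)
    (hup : ∀ ε : ℝ, 0 < ε → ∀ᶠ n : ℕ in atTop, w n ≤ Real.exp (ε * Real.log n / Real.log (Real.log n))) :
    1 / 2 < Real.exp (-Real.eulerMascheroniConstant) ∧ ∀ᵐ ω ∂P,
      (∀ ε : ℝ, 0 < ε → ∀ᶠ g : ℕ in atTop, ∃ r s : ℕ, Next (InR w θ (fun p => a p ω)) r s ∧ r + g ≤ s ∧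
        Real.log s ≤ (1 + ε) * Real.sqrt (g / (2 * θ))) ∧
      (∀ ε : ℝ, 0 < ε → {g : ℕ | Occurs (InR w θ (fun p => a p ω)) g ∧
        Real.log (first (InR w θ (fun p => a p ω)) g) ≤ (1 + ε) * Real.sqrt (g / (2 * θ))}.Infinite) ∧
      (1 / 2 < θ → ∃ ε : ℝ, 0 < ε ∧ {g : ℕ | Occurs (InR w θ (fun p => a p ω)) g ∧
        ε < |Real.log (first (InR w θ (fun p => a p ω)) g) / Real.sqrt g - 1|}.Infinite) := by
  have hS : L5helper86.UL.Sys P a := ⟨inferInstance, hmeas, hind, hunif⟩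
  refine ⟨half_lt, ?_⟩
  filter_upwards [many2 hS lg_I hθ hw hlow hup] with ω h3
  have h4 := early_g hθ (fun b hb hb2 => early hθ h3 b hb hb2)
  have h5 : ∀ ε : ℝ, 0 < ε → {g : ℕ | Occurs (InR w θ (fun p => a p ω)) g ∧
        Real.log (first (InR w θ (fun p => a p ω)) g) ≤ (1 + ε) * Real.sqrt (g / (2 * θ))}.Infinite := by
    intro ε hε
    refine Set.infinite_of_forall_exists_gt fun N => ?_
    obtain ⟨g, ⟨r, s, hrs, h6, h7⟩, h8⟩ := ((h4 ε hε).and (eventually_gt_atTop N)).exists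
    have hlt := hrs.2.2.1
    refine ⟨s - r, ⟨⟨r, s, hrs, by omega⟩, ?_⟩, by omega⟩
    have h9 : first (InR w θ (fun p => a p ω)) (s - r) ≤ s := first_le hrs
    have h10 : Real.log (first (InR w θ (fun p => a p ω)) (s - r)) ≤ Real.log s := by
      rcases Nat.eq_zero_or_pos (first (InR w θ (fun p => a p ω)) (s - r)) with h0 | h0
      · rw [h0, Nat.cast_zero, Real.log_zero]
        exact Real.log_nonneg (by exact_mod_cast (by omega : 1 ≤ s))
      · exact Real.log_le_log (by exact_mod_cast h0) (by exact_mod_cast h9)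
    refine h10.trans (h7.trans ?_)
    refine mul_le_mul_of_nonneg_left (Real.sqrt_le_sqrt ?_) (by positivity)
    refine div_le_div_of_nonneg_right ?_ (by positivity)
    exact_mod_cast (by omega : g ≤ s - r)
  refine ⟨h4, h5, fun hθ2 => ?_⟩
  have hq : Real.sqrt (1 / (2 * θ)) < 1 := by
    rw [Real.sqrt_lt' one_pos, one_pow, div_lt_one (by positivity)]
    linarith
  obtain ⟨q, hqd⟩ : ∃ q, q = Real.sqrt (1 / (2 * θ)) := ⟨_, rfl⟩
  rw [← hqd] at hq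
  have hq0 : 0 < q := by rw [hqd]; exact Real.sqrt_pos.2 (by positivity)
  obtain ⟨ε, hε⟩ : ∃ ε, ε = (1 - q) / (2 * q) := ⟨_, rfl⟩
  have hε0 : 0 < ε := by
    rw [hε]
    exact div_pos (by linarith) (by linarith)
  have hεq : (1 + ε) * q = (1 + q) / 2 := by
    rw [hε]
    field_simp
    ring
  refine ⟨(1 - q) / 4, by linarith, ((h5 ε hε0).sdiff (Set.finite_lt_nat 1)).mono ?_⟩
  rintro g ⟨⟨h6, h7⟩, h8⟩
  have hg : 1 ≤ g := not_lt.1 h8
  have hg0 : (0 : ℝ) < g := by exact_mod_cast hg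
  have hs0 : 0 < Real.sqrt g := Real.sqrt_pos.2 hg0
  refine ⟨h6, ?_⟩
  have e : Real.sqrt ((g : ℝ) / (2 * θ)) = Real.sqrt g * q := by
    rw [hqd, ← Real.sqrt_mul hg0.le, mul_one_div]
  rw [e] at h7
  have h9 : Real.log (first (InR w θ (fun p => a p ω)) g) / Real.sqrt g ≤ (1 + q) / 2 := by
    rw [div_le_iff₀ hs0, ← hεq]
    linarith
  rw [abs_sub_comm]
  refine lt_of_lt_of_le ?_ (le_abs_self _)
  linarith

end Pool.Agent.Results.MP_9a4459_nt.SemiRandomFirstGaps
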